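import Mathlib

open Set Filter Topology

namespace Pool.Agent.Results.MP_121ecb_an.Counter

open Classical in
/-- Upper density of a set of positive integers. -/
noncomputable def upperDensity (E : Set ℕ) : ℝ :=
  limsup (fun N : ℕ => (((Finset.Icc 1 N).filter (· ∈ E)).card : ℝ) / N) atTop

/-- `R_f(E)`: the `n ≥ 1` such that `x` and `x + ⌊f n⌋` both lie in `E` for some `x`. -/
def R (f : ℝ → ℝ) (E : Set ℕ) : Set ℕ := {n | 1 ≤ n ∧ ∃ x ∈ E, ∃ y ∈ E, (y : ℤ) = x + ⌊f n⌋}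

/-- Thick sets contain arbitrarily long intervals. -/
def Thick (S : Set ℕ) : Prop := ∀ L : ℕ, ∃ a : ℕ, Icc a (a + L) ⊆ S

/-- A Hardy field, given as the set of functions whose germ at `+∞` belongs to it. -/
structure IsHardy (H : Set (ℝ → ℝ)) : Prop where
  germ : ∀ f ∈ H, ∀ g, f =ᶠ[atTop] g → g ∈ H
  one : 1 ∈ H
  add : ∀ f ∈ H, ∀ g ∈ H, f + g ∈ H
  neg : ∀ f ∈ H, -f ∈ H
  mul : ∀ f ∈ H, ∀ g ∈ H, f * g ∈ H
  inv : ∀ f ∈ H, f =ᶠ[atTop] 0 ∨ ∃ g ∈ H, f * g =ᶠ[atTop] 1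
  diff : ∀ f ∈ H, (∀ᶠ t in atTop, DifferentiableAt ℝ f t) ∧ deriv f ∈ H

lemma dens (q : ℕ) (hq : 0 < q) (col : ℕ → Fin 4) :
    ∃ c, 0 < upperDensity {x | ∃ y, 1 ≤ y ∧ col y = c ∧ x = q * y} := by
  classical
  have key : ∀ M : ℕ, ∃ c, (1 / (4 * q) : ℝ) ≤
      (((Finset.Icc 1 (q * (M + 1))).filter (· ∈ {x | ∃ y, 1 ≤ y ∧ col y = c ∧ x = q * y})).card : ℝ) /
        (q * (M + 1) : ℕ) := by
    intro M
    obtain ⟨c, -, hc⟩ := Finset.exists_le_card_fiber_of_nsmul_le_card_of_maps_to (M := ℝ)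
      (s := Finset.Icc 1 (M + 1)) (t := Finset.univ) (f := col) (b := (M + 1) / 4)
      (fun _ _ => Finset.mem_univ _) Finset.univ_nonempty (by simp; linarith)
    refine ⟨c, ?_⟩
    have h1 : ((Finset.Icc 1 (M + 1)).filter (fun y => col y = c)).card ≤
        ((Finset.Icc 1 (q * (M + 1))).filter (· ∈ {x | ∃ y, 1 ≤ y ∧ col y = c ∧ x = q * y})).card := by
      refine Finset.card_le_card_of_injOn (fun y => q * y) (fun y hy => ?_)
        (fun a _ b _ h => Nat.eq_of_mul_eq_mul_left hq h)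
      simp only [Finset.coe_filter, Finset.mem_Icc, mem_setOf_eq] at hy ⊢
      exact ⟨⟨Nat.mul_pos hq hy.1.1, Nat.mul_le_mul_left _ hy.1.2⟩, y, hy.1.1, hy.2, rfl⟩
    have h2 : ((M + 1) / 4 : ℝ) ≤ ((Finset.Icc 1 (M + 1)).filter (fun y => col y = c)).card := by
      exact hc
    have h3 := h2.trans (Nat.cast_le.2 h1)
    have hq' : (0 : ℝ) < q := by exact_mod_cast hq
    rw [le_div_iff₀ (by positivity)]
    refine le_trans (le_of_eq ?_) h3
    push_cast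
    field_simp
  choose c hc using key
  obtain ⟨c0, h0⟩ := Finite.exists_infinite_fiber c
  refine ⟨c0, lt_of_lt_of_le (show (0 : ℝ) < 1 / (4 * q) by positivity) ?_⟩
  refine le_limsup_of_frequently_le ?_ ?_
  · rw [frequently_atTop]
    intro N
    obtain ⟨M, hM, hNM⟩ := (Set.infinite_coe_iff.1 h0).exists_gt N
    refine ⟨q * (M + 1), by nlinarith, ?_⟩
    have := hc M
    rwa [show c M = c0 from hM] at this
  · refine isBoundedUnder_of_eventually_le (a := 1) (Eventually.of_forall fun N => ?_)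
    refine div_le_one_of_le₀ ?_ (Nat.cast_nonneg _)
    exact_mod_cast (Finset.card_filter_le _ _).trans (by simp)

lemma counter (α : ℝ) : ∃ E : Set ℕ, 0 ∉ E ∧ 0 < upperDensity E ∧
    ¬ Thick (R (fun t => t ^ (3 / 2 : ℝ)) E ∩ R (fun t => α * t ^ (3 / 2 : ℝ) + t) E) := by
  obtain ⟨m, hm⟩ := exists_nat_ge (1 + |α|)
  have hm0 : 0 < m := by
    have : (0 : ℝ) < m := by linarith [abs_nonneg α]
    exact_mod_cast this
  have hc : ∀ y : ℕ, ⌊4 * Int.fract (α * y)⌋₊ < 4 := fun y => by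
    rw [Nat.floor_lt (by linarith [Int.fract_nonneg (α * y)])]
    push_cast
    linarith [Int.fract_lt_one (α * y)]
  obtain ⟨c, hd⟩ := dens (4 * m) (by omega) (fun y => ⟨_, hc y⟩)
  refine ⟨_, ?_, hd, fun hT => ?_⟩
  · rintro ⟨y, hy, -, h⟩
    have : 0 < 4 * m * y := by positivity
    omega
  obtain ⟨a, ha⟩ := hT (4 * m)
  obtain ⟨j, hj1, hj2⟩ : ∃ j, a ≤ 2 * m + 4 * m * j ∧ 2 * m + 4 * m * j ≤ a + 4 * m := by
    refine ⟨(a + 2 * m) / (4 * m), ?_, ?_⟩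
    · have := Nat.lt_mul_div_succ (a + 2 * m) (show 0 < 4 * m by omega)
      rw [mul_add] at this
      omega
    · have := Nat.mul_div_le (a + 2 * m) (4 * m)
      omega
  obtain ⟨⟨-, _, ⟨y, -, hy, rfl⟩, _, ⟨y', -, hy', rfl⟩, h1⟩, -, _, ⟨z, -, -, rfl⟩, _, ⟨z', -, -, rfl⟩, h2⟩ :=
    ha ⟨hj1, hj2⟩
  set t : ℝ := ((2 * m + 4 * m * j : ℕ) : ℝ) ^ (3 / 2 : ℝ)
  have e : ⌊4 * Int.fract (α * y)⌋₊ = ⌊4 * Int.fract (α * y')⌋₊ := congrArg Fin.val (hy.trans hy'.symm)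
  have a1 := Nat.floor_le (show 0 ≤ 4 * Int.fract (α * y) by linarith [Int.fract_nonneg (α * y)])
  have a2 := Nat.lt_floor_add_one (4 * Int.fract (α * y))
  have a3 := Nat.floor_le (show 0 ≤ 4 * Int.fract (α * y') by linarith [Int.fract_nonneg (α * y')])
  have a4 := Nat.lt_floor_add_one (4 * Int.fract (α * y'))
  rw [e] at a1 a2
  have b1 : ((4 * m * y' : ℕ) : ℝ) = (4 * m * y : ℕ) + (⌊t⌋ : ℝ) := by exact_mod_cast h1
  have b2 : ((4 * m * z' : ℕ) : ℝ) = (4 * m * z : ℕ) + (⌊α * t + (2 * m + 4 * m * j : ℕ)⌋ : ℝ) := by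
    exact_mod_cast h2
  have c1 := Int.floor_add_fract t
  have c2 := Int.floor_le (α * t + (2 * m + 4 * m * j : ℕ))
  have c3 := Int.lt_floor_add_one (α * t + (2 * m + 4 * m * j : ℕ))
  have c4 : |α * Int.fract t| ≤ |α| := by
    rw [abs_mul, abs_of_nonneg (Int.fract_nonneg t)]
    exact mul_le_of_le_one_right (abs_nonneg _) (Int.fract_lt_one t).le
  have c5 := abs_le.1 c4
  have d1 := Int.floor_add_fract (α * y)
  have d2 := Int.floor_add_fract (α * y')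
  push_cast at b1 b2 c2 c3
  have hm' : (0 : ℝ) < m := by exact_mod_cast hm0
  have f1 : α * t = 4 * m * (⌊α * y'⌋ - ⌊α * y⌋) + m * (4 * Int.fract (α * y') - 4 * Int.fract (α * y)) +
      α * Int.fract t := by
    have : α * t = 4 * m * (α * y') - 4 * m * (α * y) + α * Int.fract t := by
      linear_combination (-α) * c1 - α * b1
    linear_combination this - 4 * m * d2 + 4 * m * d1
  have g1 : m * (4 * Int.fract (α * y') - 4 * Int.fract (α * y)) < m * 1 :=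
    mul_lt_mul_of_pos_left (by linarith) hm'
  have g2 : m * (-1) < m * (4 * Int.fract (α * y') - 4 * Int.fract (α * y)) :=
    mul_lt_mul_of_pos_left (by linarith) hm'
  set k : ℤ := z' - z - j - (⌊α * y'⌋ - ⌊α * y⌋) with hk
  have hk' : (k : ℝ) = z' - z - j - (⌊α * y'⌋ - ⌊α * y⌋) := by rw [hk]; push_cast; ring
  have k1 : 4 * m * (0 : ℝ) < 4 * m * k := by rw [hk']; nlinarith
  have k2 : 4 * m * (k : ℝ) < 4 * m * 1 := by rw [hk']; nlinarith
  have k3 : (0 : ℝ) < k := lt_of_mul_lt_mul_left k1 (by positivity)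
  have k4 : (k : ℝ) < 1 := lt_of_mul_lt_mul_left k2 (by positivity)
  have k5 : 0 < k := by exact_mod_cast k3
  have k6 : k < 1 := by exact_mod_cast k4
  omega

open Polynomial in
def HH : Set (ℝ → ℝ) := {f | ∃ P Q : ℝ[X], Q ≠ 0 ∧ f =ᶠ[atTop] fun t => P.eval √t / Q.eval √t}

open Polynomial in
lemma ev_ne {Q : ℝ[X]} (hQ : Q ≠ 0) : ∀ᶠ t in atTop, Q.eval √t ≠ 0 :=
  Real.tendsto_sqrt_atTop.eventually (Q.eventually_no_roots hQ)

lemma ev_nhds {f g : ℝ → ℝ} (h : f =ᶠ[atTop] g) : ∀ᶠ t in atTop, f =ᶠ[𝓝 t] g := by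
  obtain ⟨a, ha⟩ := eventually_atTop.1 h
  filter_upwards [eventually_gt_atTop a] with t ht
  filter_upwards [Ioi_mem_nhds ht] with s hs using ha s (le_of_lt hs)

open Polynomial in
lemma hardy : IsHardy HH := by
  refine ⟨?_, ⟨1, 1, one_ne_zero, Eventually.of_forall fun t => by simp⟩, ?_, ?_, ?_, ?_, ?_⟩
  · rintro f ⟨P, Q, hQ, h⟩ g hg
    exact ⟨P, Q, hQ, hg.symm.trans h⟩
  · rintro f ⟨P, Q, hQ, h⟩ g ⟨P', Q', hQ', h'⟩
    refine ⟨P * Q' + Q * P', Q * Q', mul_ne_zero hQ hQ', ?_⟩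
    filter_upwards [h, h', ev_ne hQ, ev_ne hQ'] with t h1 h2 h3 h4
    simp only [Pi.add_apply, h1, h2, eval_add, eval_mul]
    field_simp
  · rintro f ⟨P, Q, hQ, h⟩
    refine ⟨-P, Q, hQ, ?_⟩
    filter_upwards [h] with t h1
    simp [h1, neg_div]
  · rintro f ⟨P, Q, hQ, h⟩ g ⟨P', Q', hQ', h'⟩
    refine ⟨P * P', Q * Q', mul_ne_zero hQ hQ', ?_⟩
    filter_upwards [h, h'] with t h1 h2
    simp [h1, h2, div_mul_div_comm]
  · rintro f ⟨P, Q, hQ, h⟩
    by_cases hP : P = 0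
    · left
      filter_upwards [h] with t h1
      simp [h1, hP]
    · refine Or.inr ⟨_, ⟨Q, P, hP, EventuallyEq.rfl⟩, ?_⟩
      filter_upwards [h, ev_ne hQ, ev_ne hP] with t h1 h2 h3
      simp only [Pi.mul_apply, h1, Pi.one_apply]
      field_simp
  · rintro f ⟨P, Q, hQ, h⟩
    have key : ∀ᶠ t in atTop, HasDerivAt f ((P.derivative * Q - P * Q.derivative).eval √t /
        (C 2 * X * Q ^ 2).eval √t) t := by
      filter_upwards [ev_nhds h, ev_ne hQ, eventually_gt_atTop 0] with t h1 h2 h3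
      have h4 := Real.hasDerivAt_sqrt h3.ne'
      have h5 : √t ≠ 0 := (Real.sqrt_pos.2 h3).ne'
      refine ((((P.hasDerivAt √t).comp t h4).div ((Q.hasDerivAt √t).comp t h4) h2).congr_deriv ?_).congr_of_eventuallyEq h1
      simp only [Function.comp, eval_sub, eval_mul, eval_pow, eval_C, eval_X]
      field_simp
    exact ⟨key.mono fun t ht => ht.differentiableAt, _, _,
      mul_ne_zero (mul_ne_zero (by simp) X_ne_zero) (pow_ne_zero _ hQ), key.mono fun t ht => ht.deriv⟩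

lemma rp {t : ℝ} (ht : 0 ≤ t) : t ^ (3 / 2 : ℝ) = √t ^ 3 := by
  rw [Real.sqrt_eq_rpow, ← Real.rpow_natCast, ← Real.rpow_mul ht]
  norm_num

lemma der (A B : ℝ) (m : ℕ) : ∃ a : ℝ, (m = 0 → a = A) ∧ (m = 1 → a = 3 / 2 * A) ∧ ∀ t, 0 < t →
    deriv^[m] (fun t => A * t ^ (3 / 2 : ℝ) + B * t) t =
      a * t ^ (3 / 2 - m : ℝ) + if m = 0 then B * t else if m = 1 then B else 0 := by
  induction m with
  | zero => exact ⟨A, fun _ => rfl, by simp, fun t _ => by simp⟩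
  | succ m ih =>
    obtain ⟨a, h1, -, h2⟩ := ih
    refine ⟨(3 / 2 - m) * a, by simp, fun h => by simp [show m = 0 by omega, h1 (by omega)], fun t ht => ?_⟩
    rw [Function.iterate_succ_apply', EventuallyEq.deriv_eq (eventually_of_mem (Ioi_mem_nhds ht) h2)]
    have h3 : HasDerivAt (fun t : ℝ => if m = 0 then B * t else if m = 1 then B else 0)
        (if m + 1 = 0 then B * t else if m + 1 = 1 then B else 0) t := by
      rcases m with _ | m
      · simpa using (hasDerivAt_id t).const_mul B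
      · simpa using hasDerivAt_const t _
    rw [(((Real.hasDerivAt_rpow_const (Or.inl ht.ne')).const_mul a).fun_add h3).deriv]
    push_cast
    rw [show (3 / 2 - (m + 1) : ℝ) = 3 / 2 - m - 1 by ring]
    ring

lemma expa (A B : ℝ) (m : ℕ) : ∃ o : ℝ → ℝ, Tendsto o atTop (𝓝 0) ∧ ∀ t, 0 < t →
    deriv^[m] (fun t => A * t ^ (3 / 2 : ℝ) + B * t) t = (if m = 0 then A else 0) * √t ^ 3 +
      (if m = 0 then B else 0) * √t ^ 2 + (if m = 1 then 3 / 2 * A else 0) * √t + (if m = 1 then B else 0) + o t := by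
  obtain ⟨a, h1, h2, h3⟩ := der A B m
  rcases m with _ | _ | m
  · exact ⟨0, tendsto_const_nhds, fun t ht => by simp [rp ht.le, Real.sq_sqrt ht.le]⟩
  · refine ⟨0, tendsto_const_nhds, fun t ht => ?_⟩
    rw [h3 t ht, h2 rfl, Real.sqrt_eq_rpow]
    norm_num
  · refine ⟨fun t => a * t ^ (-((m + 1 + 1 : ℕ) - 3 / 2) : ℝ), ?_, fun t ht => by simp [h3 t ht]⟩
    have := (tendsto_rpow_neg_atTop (y := (m + 1 + 1 : ℕ) - 3 / 2) (by
      push_cast; linarith [(Nat.cast_nonneg m : (0 : ℝ) ≤ m)])).const_mul a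
    rwa [mul_zero] at this

open Polynomial in
lemma cls {F o : ℝ → ℝ} {A B C' D : ℝ} (ho : Tendsto o atTop (𝓝 0))
    (h : ∀ t, 0 < t → F t = A * √t ^ 3 + B * √t ^ 2 + C' * √t + D + o t) (h0 : A = 0 → C' = 0 → D = 0) :
    Tendsto (fun t => |F t|) atTop (𝓝 0) ∨ Tendsto (fun t => |F t|) atTop atTop := by
  by_cases hd : 0 < (C A * X ^ 3 + C B * X ^ 2 + C C' * X + C D).degree
  · right
    have h1 := ((abs_tendsto_atTop _ hd).comp Real.tendsto_sqrt_atTop).atTop_add ho.abs.neg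
    refine tendsto_atTop_mono' _ ?_ h1
    filter_upwards [eventually_gt_atTop 0] with t ht
    simp only [h t ht, Function.comp, eval_add, eval_mul, eval_pow, eval_C, eval_X]
    have := abs_sub (A * √t ^ 3 + B * √t ^ 2 + C' * √t + D + o t) (o t)
    rw [add_sub_cancel_right] at this
    linarith
  · left
    have h1 := fun n : ℕ => coeff_eq_zero_of_degree_lt (n := n + 1)
      ((not_lt.1 hd).trans_lt (by exact_mod_cast Nat.succ_pos n))
    have hA : A = 0 := by simpa [coeff_X_pow, coeff_X, coeff_C] using h1 2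
    have hB : B = 0 := by simpa [coeff_X_pow, coeff_X, coeff_C] using h1 1
    have hC : C' = 0 := by simpa [coeff_X_pow, coeff_X, coeff_C] using h1 0
    refine (by simpa using ho.abs : Tendsto (fun t => |o t|) atTop (𝓝 0)).congr' ?_
    filter_upwards [eventually_gt_atTop 0] with t ht
    simp [h t ht, hA, hB, hC, h0 hA hC]

/-- Two functions of a Hardy field satisfying the hypothesis on `S(f₁, f₂)` and a set `E` of positive upper
density for which `R_{f₁}(E) ∩ R_{f₂}(E)` is not thick. -/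
theorem result : ∃ H, IsHardy H ∧ ∃ f₁ ∈ H, ∃ f₂ ∈ H,
    (∀ (c₁ c₂ : ℤ) (m₁ m₂ : ℕ),
      Tendsto (fun t => |c₁ * deriv^[m₁] f₁ t + c₂ * deriv^[m₂] f₂ t|) atTop (𝓝 0) ∨
      Tendsto (fun t => |c₁ * deriv^[m₁] f₁ t + c₂ * deriv^[m₂] f₂ t|) atTop atTop) ∧
    ∃ E : Set ℕ, 0 ∉ E ∧ 0 < upperDensity E ∧ ¬ Thick (R f₁ E ∩ R f₂ E) := by
  refine ⟨HH, hardy, _, ⟨Polynomial.X ^ 3, 1, one_ne_zero, ?_⟩, _,
    ⟨Polynomial.C √2 * Polynomial.X ^ 3 + Polynomial.X ^ 2, 1, one_ne_zero, ?_⟩, ?_, counter √2⟩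
  · filter_upwards [eventually_ge_atTop 0] with t ht
    simp [rp ht]
  · filter_upwards [eventually_ge_atTop 0] with t ht
    simp [rp ht, Real.sq_sqrt ht]
  intro c₁ c₂ m₁ m₂
  obtain ⟨o₁, h1, h2⟩ := expa 1 0 m₁
  obtain ⟨o₂, h3, h4⟩ := expa √2 1 m₂
  simp only [one_mul, zero_mul, add_zero, ite_self] at h2 h4
  refine cls (o := fun t => c₁ * o₁ t + c₂ * o₂ t)
    (A := c₁ * (if m₁ = 0 then 1 else 0) + c₂ * if m₂ = 0 then √2 else 0) (B := c₂ * if m₂ = 0 then 1 else 0)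
    (C' := c₁ * (if m₁ = 1 then 3 / 2 * 1 else 0) + c₂ * if m₂ = 1 then 3 / 2 * √2 else 0)
    (D := c₂ * if m₂ = 1 then 1 else 0) (by simpa using (h1.const_mul _).add (h3.const_mul _))
    (fun t ht => by rw [h2 t ht, h4 t ht]; ring) fun _ hC => ?_
  by_cases hm : m₂ = 1
  · by_contra h
    have h5 : c₂ ≠ 0 := fun e => h (by simp [e])
    rw [if_pos hm] at hC
    refine (irrational_sqrt_two.intCast_mul h5).ne_int (if m₁ = 1 then -c₁ else 0) ?_
    split_ifs at hC ⊢ <;> push_cast <;> linarith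
  · simp [hm]

end Pool.Agent.Results.MP_121ecb_an.Counter
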